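import Pool.Agent.CLQ.Main

/-!
# Cover stability of clique dynamics at local girth six

Let `G` be a graph in which every open neighbourhood has girth at least six and minimum degree at
least two, and let `p : H → G` be a triangular covering map.  If `G` is clique convergent then so
is `H`.  If moreover `p` is onto (for instance if `G` is connected and `H` is nonempty) then `H` is
clique convergent if and only if `G` is clique convergent.
-/

namespace Pool.Agent.Results.MP_e353ef_co.CoverStable

universe u

open CLQ

theorem result (G H : Gph.{u}) (p : H.V → G.V) (h1 : LocalGirthSix G.G)
    (h2 : LocalMinDegreeTwo G.G) (hp : IsTriangularCovering H.G G.G p) :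
    (Convergent G → Convergent H) ∧
    ((Function.Surjective p ∨ (G.G.Connected ∧ Nonempty H.V)) →
      (Convergent H ↔ Convergent G)) :=
  CLQ.final G H p h1 h2 hp

end Pool.Agent.Results.MP_e353ef_co.CoverStable
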